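import Pool.Agent.Helper4.TA.Ln
import Pool.Agent.Helper53.TA.Fp

/-!
PROJECT TA (MP_274814_nt), block F5, file Dp (offer TA-F5-3): the Taylor coefficients of one factor.
-/

set_option autoImplicit false

namespace Pool.Agent.Helper4.TA

open Pool.Agent.Helper49.TA Complex Finset

/-- Cauchy's estimate on the unit circle: `|a n| ‖μ‖ ^ n = ‖iteratedDeriv n (Sf τ) 0‖ ≤ n! sup`
(`norm_iteratedDeriv_le_of_forall_mem_sphere_norm_le`, `Sf_differentiable`; the supremum by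
compactness). -/
theorem hurwitz_bound {τ μ : ℂ} (hτ : 0 < τ.im) {a : ℕ → ℤ} (h : HasHurwitz τ μ a) :
    ∃ B : ℝ, 1 ≤ B ∧ ∀ n, |(a n : ℝ)| ≤ B ^ (n + 1) * n.factorial := by
  obtain ⟨hμ, ha⟩ := h
  have hd := Sf_differentiable hτ
  obtain ⟨M, hM⟩ := (isCompact_sphere (0 : ℂ) 1).exists_bound_of_continuousOn
    hd.continuous.continuousOn
  have hμ0 : 0 < ‖μ‖ := norm_pos_iff.mpr hμ
  have hM0 : 0 ≤ max M 0 := le_max_right _ _
  have hi0 : 0 ≤ ‖μ‖⁻¹ := by positivity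
  refine ⟨1 + max M 0 + ‖μ‖⁻¹, by linarith, fun n => ?_⟩
  have h1 := Complex.norm_iteratedDeriv_le_of_forall_mem_sphere_norm_le n (zero_lt_one)
    hd.diffContOnCl (fun z hz => (hM z hz).trans (le_max_left M 0))
  rw [ha n, norm_mul, norm_pow, one_pow, div_one] at h1
  have h2 : ‖((a n : ℤ) : ℂ)‖ = |(a n : ℝ)| := by
    rw [Complex.norm_intCast]
  rw [h2] at h1
  have h3 : |(a n : ℝ)| = ‖μ‖⁻¹ ^ n * (‖μ‖ ^ n * |(a n : ℝ)|) := by
    rw [← mul_assoc, ← mul_pow, inv_mul_cancel₀ hμ0.ne', one_pow, one_mul]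
  rw [h3]
  calc ‖μ‖⁻¹ ^ n * (‖μ‖ ^ n * |(a n : ℝ)|) ≤ ‖μ‖⁻¹ ^ n * (n.factorial * max M 0) :=
        mul_le_mul_of_nonneg_left h1 (by positivity)
    _ ≤ (1 + max M 0 + ‖μ‖⁻¹) ^ n * (n.factorial * (1 + max M 0 + ‖μ‖⁻¹)) := by
        apply mul_le_mul
        · exact pow_le_pow_left₀ hi0 (by linarith) n
        · exact mul_le_mul_of_nonneg_left (by linarith) (by positivity)
        · positivity
        · positivity
    _ = (1 + max M 0 + ‖μ‖⁻¹) ^ (n + 1) * n.factorial := by ring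

/-- For `f` entire: the `m`-th derivative of `ζ ↦ ζ ^ j * f (ζ * X)` at `0` is
`m (m-1) ⋯ (m-j+1) X^(m-j) f^{(m-j)}(0)` (Leibniz rule `iteratedDeriv_fun_mul`,
only the term `i = j` survives, `iteratedDeriv_pow`, `iteratedDeriv_comp_const_mul`;
both sides vanish for `j > m`). -/
theorem deriv_pow_mul {f : ℂ → ℂ} (hf : Differentiable ℂ f) (X : ℂ) (j m : ℕ) :
    iteratedDeriv m (fun ζ : ℂ => ζ ^ j * f (ζ * X)) 0 =
      (m.descFactorial j : ℂ) * X ^ (m - j) * iteratedDeriv (m - j) f 0 := by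
  have d1 : ContDiffAt ℂ (m : ℕ) (fun ζ : ℂ => ζ ^ j) 0 := (contDiff_id.pow j).contDiffAt
  have d2 : ContDiffAt ℂ (m : ℕ) (fun ζ : ℂ => f (ζ * X)) 0 :=
    (hf.contDiff.comp (contDiff_id.mul contDiff_const)).contDiffAt
  rw [iteratedDeriv_fun_mul d1 d2]
  have e1 : ∀ i, iteratedDeriv i (fun ζ : ℂ => f (ζ * X)) 0 = X ^ i * iteratedDeriv i f 0 := by
    intro i
    have e2 : (fun ζ : ℂ => f (ζ * X)) = fun ζ => f (X * ζ) := by
      funext ζ
      rw [mul_comm]
    rw [e2, iteratedDeriv_comp_const_mul (hf.contDiff) X]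
    simp
  have e3 : ∀ i, iteratedDeriv i (fun ζ : ℂ => ζ ^ j) 0 = if i = j then (j.factorial : ℂ) else 0 := by
    intro i
    rw [iteratedDeriv_fun_pow_zero]
    by_cases h : i = j
    · rw [if_pos h, if_pos h]
    · rw [if_neg h, if_neg h, Nat.cast_zero]
  simp_rw [e1, e3]
  by_cases hj : j ≤ m
  · rw [Finset.sum_eq_single j]
    · rw [if_pos rfl, Nat.descFactorial_eq_factorial_mul_choose]
      push_cast
      ring
    · intro i _ hi
      rw [if_neg hi]
      ring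
    · intro h
      exact absurd (Finset.mem_range.mpr (by omega)) h
  · rw [Finset.sum_eq_zero, Nat.descFactorial_eq_zero_iff_lt.mpr (by omega)]
    · simp
    · intro i hi
      rw [Finset.mem_range] at hi
      rw [if_neg (by omega)]
      ring

/-- `iteratedDeriv n (iteratedDeriv k f) = iteratedDeriv (n + k) f` -/
theorem deriv_deriv (f : ℂ → ℂ) (n k : ℕ) (x : ℂ) :
    iteratedDeriv n (iteratedDeriv k f) x = iteratedDeriv (n + k) f x := by
  rw [iteratedDeriv_eq_iterate, iteratedDeriv_eq_iterate, iteratedDeriv_eq_iterate,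
    Function.iterate_add_apply]

/-- Sum of `deriv_pow_mul` for `f = iteratedDeriv (k - j) (Sf τ)`. The terms with `j > k` on the
right vanish (`choose`), the terms with `j > m` on the left vanish (`descFactorial`). -/
theorem psi_line {τ μ : ℂ} (hτ : 0 < τ.im) {a : ℕ → ℤ} (h : HasHurwitz τ μ a) (k m : ℕ)
    (X Y : ℂ) : iteratedDeriv m (fun ζ : ℂ => psi τ μ k (ζ * X) (ζ * Y)) 0 =
      ∑ j ∈ range (m + 1), (k.choose j : ℂ) * (m.descFactorial j : ℂ) * (a (k + m - 2 * j) : ℂ) *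
        (μ * X) ^ (m - j) * (-(hc τ) * Y / μ) ^ j := by
  have hd := Sf_differentiable hτ
  have hdk : ∀ i, Differentiable ℂ (iteratedDeriv i (Sf τ)) := fun i =>
    Pool.Agent.Helper53.TA.iter_diff hd i
  have e1 : (fun ζ : ℂ => psi τ μ k (ζ * X) (ζ * Y)) = fun ζ : ℂ =>
      ∑ j ∈ range (k + 1), (μ⁻¹ ^ k * (k.choose j : ℂ) * (-(hc τ) * Y) ^ j) *
        (ζ ^ j * iteratedDeriv (k - j) (Sf τ) (ζ * X)) := by
    funext ζ
    unfold psi
    rw [Finset.mul_sum]
    refine Finset.sum_congr rfl fun j _ => ?_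
    have : (-((hc τ : ℝ) : ℂ) * (ζ * Y)) ^ j = ζ ^ j * (-((hc τ : ℝ) : ℂ) * Y) ^ j := by
      rw [← mul_pow]
      congr 1
      ring
    rw [this]
    ring
  have hc1 : ∀ j ∈ range (k + 1), ContDiffAt ℂ (m : ℕ) (fun ζ : ℂ =>
      (μ⁻¹ ^ k * (k.choose j : ℂ) * (-(hc τ) * Y) ^ j) *
        (ζ ^ j * iteratedDeriv (k - j) (Sf τ) (ζ * X))) 0 := by
    intro j _
    exact (contDiff_const.mul ((contDiff_id.pow j).mul
      ((hdk (k - j)).contDiff.comp (contDiff_id.mul contDiff_const)))).contDiffAt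
  rw [e1, iteratedDeriv_fun_sum hc1]
  have e2 : ∀ j ∈ range (k + 1), iteratedDeriv m (fun ζ : ℂ =>
      (μ⁻¹ ^ k * (k.choose j : ℂ) * (-(hc τ) * Y) ^ j) *
        (ζ ^ j * iteratedDeriv (k - j) (Sf τ) (ζ * X))) 0 =
      (k.choose j : ℂ) * (m.descFactorial j : ℂ) * (a (k + m - 2 * j) : ℂ) *
        (μ * X) ^ (m - j) * (-(hc τ) * Y / μ) ^ j := by
    intro j hj
    rw [Finset.mem_range] at hj
    rw [iteratedDeriv_const_mul_field, deriv_pow_mul (hdk (k - j)), deriv_deriv]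
    by_cases hjm : j ≤ m
    · have e3 : m - j + (k - j) = k + m - 2 * j := by omega
      rw [e3, h.2]
      have e4 : μ ^ (k + m - 2 * j) = μ ^ k * μ ^ (m - j) * μ⁻¹ ^ j := by
        rw [inv_pow, ← pow_add, ← div_eq_mul_inv, eq_div_iff (pow_ne_zero _ h.1), ← pow_add]
        congr 1
        omega
      rw [e4, div_eq_mul_inv, mul_pow _ μ⁻¹, mul_pow μ X]
      have e5 : μ⁻¹ ^ k * μ ^ k = 1 := by
        rw [← mul_pow, inv_mul_cancel₀ h.1, one_pow]
      linear_combination ((k.choose j : ℂ) * (m.descFactorial j : ℂ) * (a (k + m - 2 * j) : ℂ) *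
        μ ^ (m - j) * X ^ (m - j) * (-(hc τ) * Y) ^ j * μ⁻¹ ^ j) * e5
    · rw [Nat.descFactorial_eq_zero_iff_lt.mpr (by omega)]
      simp
  rw [Finset.sum_congr rfl e2]
  -- both sums are over all j up to k + m
  have e3 : ∑ j ∈ range (k + 1), (k.choose j : ℂ) * (m.descFactorial j : ℂ) *
      (a (k + m - 2 * j) : ℂ) * (μ * X) ^ (m - j) * (-(hc τ) * Y / μ) ^ j =
      ∑ j ∈ range (k + m + 1), (k.choose j : ℂ) * (m.descFactorial j : ℂ) *
      (a (k + m - 2 * j) : ℂ) * (μ * X) ^ (m - j) * (-(hc τ) * Y / μ) ^ j := by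
    apply Finset.sum_subset
    · intro j hj
      rw [Finset.mem_range] at hj ⊢
      omega
    · intro j _ hj
      rw [Finset.mem_range] at hj
      rw [Nat.choose_eq_zero_of_lt (by omega)]
      simp
  rw [e3]
  symm
  apply Finset.sum_subset
  · intro j hj
    rw [Finset.mem_range] at hj ⊢
    omega
  · intro j _ hj
    rw [Finset.mem_range] at hj
    rw [Nat.descFactorial_eq_zero_iff_lt.mpr (by omega)]
    simp

end Pool.Agent.Helper4.TA
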