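import Mathlib
import Pool.Agent.Helper49.TA.Df
import Pool.Agent.Helper4.LT.Dd

/-!
PROJECT TA (MP_274814_nt), grid lemma, file Gr.
-/

set_option autoImplicit false

namespace Pool.Agent.Helper4.TA

open Pool.Agent.Helper49.TA MvPolynomial Finset

private theorem G1_cd {F : (Fin 4 → ℂ) → ℂ} (hF : Differentiable ℂ F) (n : ℕ) :
    ContDiff ℂ n F := by
  induction n generalizing F with
  | zero => exact contDiff_zero.2 hF.continuous
  | succ n ih =>
    have h : ((n + 1 : ℕ) : WithTop ℕ∞) = (n : WithTop ℕ∞) + 1 := by push_cast; rfl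
    rw [h, contDiff_succ_iff_fderiv_apply]
    refine ⟨hF, fun hn => ?_, fun y => ih (LTG.diff_dir hF y)⟩
    exact absurd hn (by simp)

/-- (offer TA-G-1) `dl m F z = iteratedFDeriv ℂ m F 0 (fun _ => z)`
(`ContinuousLinearMap.iteratedFDeriv_comp_right` for `ContinuousLinearMap.toSpanSingleton ℂ z`,
`iteratedDeriv_eq_iteratedFDeriv`). -/
theorem dl_eq {F : (Fin 4 → ℂ) → ℂ} (hF : Differentiable ℂ F) (m : ℕ) (z : Fin 4 → ℂ) :
    dl m F z = iteratedFDeriv ℂ m F 0 (fun _ => z) := by
  have h1 := (ContinuousLinearMap.toSpanSingleton ℂ z).iteratedFDeriv_comp_right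
    (G1_cd hF m) 0 (le_refl (m : WithTop ℕ∞))
  have h2 : (fun ζ : ℂ => F (ζ • z)) = F ∘ (ContinuousLinearMap.toSpanSingleton ℂ z) := by
    funext ζ
    rw [Function.comp_apply, ContinuousLinearMap.toSpanSingleton_apply]
  unfold dl
  rw [h2, iteratedDeriv_eq_iteratedFDeriv, h1, map_zero]
  rw [ContinuousMultilinearMap.compContinuousLinearMap_apply]
  simp only [ContinuousLinearMap.toSpanSingleton_apply, one_smul]

private theorem G1_hom {m : ℕ} (c : (Fin m → Fin 4) → ℂ) :
    (∑ r : Fin m → Fin 4, C (c r) * ∏ i, (X (r i) : MvPolynomial (Fin 4) ℂ)).IsHomogeneous m := by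
  refine IsHomogeneous.sum _ _ _ fun r _ => ?_
  have h1 : (∏ i : Fin m, (X (r i) : MvPolynomial (Fin 4) ℂ)).IsHomogeneous (∑ _i : Fin m, 1) :=
    IsHomogeneous.prod _ _ _ fun i _ => isHomogeneous_X ℂ (r i)
  have h2 : (∑ _i : Fin m, 1) = m := by simp
  rw [h2] at h1
  exact h1.C_mul (c r)

/-- (offer TA-G-1) `z = ∑ j, z j • Pi.single j 1`, `MultilinearMap.map_sum`, `map_smul_univ`:
`P = ∑ r : Fin m → Fin 4, C (iteratedFDeriv ℂ m F 0 (fun i => Pi.single (r i) 1)) * ∏ i, X (r i)`. -/
theorem dl_poly {F : (Fin 4 → ℂ) → ℂ} (hF : Differentiable ℂ F) (m : ℕ) :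
    ∃ P : MvPolynomial (Fin 4) ℂ, P.IsHomogeneous m ∧ ∀ z, dl m F z = eval z P := by
  refine ⟨∑ r : Fin m → Fin 4, C (iteratedFDeriv ℂ m F 0 (fun i => Pi.single (r i) 1)) *
    ∏ i, X (r i), G1_hom _, fun z => ?_⟩
  have h1 : (fun _ : Fin m => z) = fun _ : Fin m => ∑ j : Fin 4, z j • (Pi.single j 1 : Fin 4 → ℂ) := by
    funext _ k
    simp [Finset.sum_apply, Pi.single_apply]
  rw [dl_eq hF, h1, ContinuousMultilinearMap.map_sum, map_sum]
  refine Finset.sum_congr rfl fun r _ => ?_
  rw [ContinuousMultilinearMap.map_smul_univ, map_mul, eval_C, map_prod, smul_eq_mul, mul_comm]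
  simp only [eval_X]

private theorem grid_scale {d : ℕ} {F : MvPolynomial (Fin 4) ℂ} (hF : F.IsHomogeneous d) (t : ℂ)
    (x : Fin 4 → ℂ) : eval (fun i => t * x i) F = t ^ d * eval x F := by
  rw [eval_eq, eval_eq, Finset.mul_sum]
  refine Finset.sum_congr rfl fun m hm => ?_
  have h1 := hF.degree_eq_sum_deg_support hm
  have h2 : ∏ i ∈ m.support, (t * x i) ^ m i = t ^ d * ∏ i ∈ m.support, x i ^ m i := by
    simp only [mul_pow]
    rw [Finset.prod_mul_distrib, Finset.prod_pow_eq_pow_sum, h1]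
  rw [h2]
  ring

private noncomputable def gridF (s : Fin 4 → ℂ) (i : Fin 4) : MvPolynomial (Fin 4) ℂ :=
  if i = 0 then C (s 0) else C (s i) * X i

private theorem grid_eval (P : MvPolynomial (Fin 4) ℂ) (s w : Fin 4 → ℂ) :
    eval w (bind₁ (gridF s) P) = eval (fun i => if i = 0 then s 0 else s i * w i) P := by
  have h1 := MvPolynomial.eval₂Hom_bind₁ (RingHom.id ℂ) w (gridF s) P
  have h2 : (fun i => eval₂Hom (RingHom.id ℂ) w (gridF s i)) =
      fun i => if i = 0 then s 0 else s i * w i := by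
    funext i
    unfold gridF
    split_ifs
    · simp
    · simp
  rw [h2] at h1
  exact h1

private theorem grid_f0 (s : Fin 4 → ℂ) (j : Fin 4) : (gridF s j).degreeOf 0 = 0 := by
  unfold gridF
  split_ifs with h
  · exact degreeOf_C _ _
  · refine Nat.le_zero.1 ((degreeOf_C_mul_le _ _ _).trans ?_)
    rw [degreeOf_X]
    split_ifs with h3
    · exact absurd h3.symm h
    · exact le_rfl

private theorem grid_f1 (s : Fin 4 → ℂ) (i j : Fin 4) : (gridF s j).degreeOf i ≤ 1 := by
  unfold gridF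
  split_ifs with h
  · rw [degreeOf_C]
    exact Nat.zero_le _
  · refine (degreeOf_C_mul_le _ _ _).trans ?_
    rw [degreeOf_X]
    split_ifs <;> simp

private theorem grid_deg (P : MvPolynomial (Fin 4) ℂ) (s : Fin 4 → ℂ) (i : Fin 4) (c : ℕ)
    (hc : ∀ j, (gridF s j).degreeOf i ≤ c) :
    (bind₁ (gridF s) P).degreeOf i ≤ P.totalDegree * c := by
  change (aeval (gridF s) P).degreeOf i ≤ _
  rw [aeval_def, eval₂_eq]
  refine (degreeOf_sum_le _ _ _).trans (Finset.sup_le fun m hm => ?_)
  rw [MvPolynomial.algebraMap_eq]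
  refine (degreeOf_C_mul_le _ _ _).trans ((degreeOf_prod_le _ _ _).trans ?_)
  calc _ ≤ ∑ j ∈ m.support, m j * c := by
        refine Finset.sum_le_sum fun j _ => (degreeOf_pow_le _ _ _).trans ?_
        exact Nat.mul_le_mul_left _ (hc j)
    _ = (∑ j ∈ m.support, m j) * c := by rw [Finset.sum_mul]
    _ ≤ P.totalDegree * c := Nat.mul_le_mul_right _ (le_totalDegree hm)

/-- (offer TA-G-2) a homogeneous polynomial of degree `m` which vanishes on the scaled grid
`{1} × {0..m}³` is zero. `Q = bind₁ (fun i => if i = 0 then C (s 0) else C (s i) * X i) P`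
satisfies `eval w Q = P(s₀, s₁ w₁, s₂ w₂, s₃ w₃)`, `degreeOf 0 Q = 0 < 1`, `degreeOf i Q ≤ m`, so
`Q = 0` by `eq_zero_of_eval_zero_at_prod_finset` (the sets `{1}`, `image Nat.cast (range (m+1))`).
So `P z = (z 0 / s 0)^m P(s 0, ..) = 0` if `z 0 ≠ 0`; then `X 0 * P = 0` by `MvPolynomial.funext`.
-/
theorem grid {m : ℕ} (P : MvPolynomial (Fin 4) ℂ) (hP : P.IsHomogeneous m) (s : Fin 4 → ℂ)
    (hs : ∀ i, s i ≠ 0) (h : ∀ a : Fin 4 → ℕ, a 0 = 1 → (∀ i, i ≠ 0 → a i ≤ m) →
      eval (fun i => s i * a i) P = 0) : P = 0 := by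
  classical
  have hQ : bind₁ (gridF s) P = 0 := by
    refine eq_zero_of_eval_zero_at_prod_finset _
      (fun i => if i = 0 then {1} else (Finset.range (m + 1)).image (Nat.cast : ℕ → ℂ))
      (fun i => ?_) (fun x hx => ?_)
    · by_cases hi : i = 0
      · subst hi
        rw [if_pos rfl, Finset.card_singleton]
        have := grid_deg P s 0 0 (fun j => (grid_f0 s j).le)
        omega
      · rw [if_neg hi, Finset.card_image_of_injective _ Nat.cast_injective, Finset.card_range]
        have h1 := grid_deg P s i 1 (fun j => grid_f1 s i j)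
        have h2 := hP.totalDegree_le
        omega
    · have h1 : ∀ i, ∃ n : ℕ, (n : ℂ) = x i ∧ (i = 0 → n = 1) ∧ (i ≠ 0 → n ≤ m) := by
        intro i
        have h2 := hx i
        by_cases hi : i = 0
        · rw [if_pos hi, Finset.mem_singleton] at h2
          exact ⟨1, by rw [h2, Nat.cast_one], fun _ => rfl, fun h3 => absurd hi h3⟩
        · rw [if_neg hi] at h2
          obtain ⟨n, hn, hnx⟩ := Finset.mem_image.1 h2
          exact ⟨n, hnx, fun h3 => absurd h3 hi, fun _ => Nat.lt_succ_iff.1 (Finset.mem_range.1 hn)⟩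
      choose a ha h0 h4 using h1
      rw [grid_eval]
      have h5 : (fun i => if i = 0 then s 0 else s i * x i) = fun i => s i * (a i : ℂ) := by
        funext i
        split_ifs with hi
        · subst hi
          rw [h0 0 rfl, Nat.cast_one, mul_one]
        · rw [ha]
      rw [h5]
      exact h a (h0 0 rfl) h4
  have h2 : X 0 * P = 0 := by
    refine MvPolynomial.funext fun x => ?_
    rw [map_mul, eval_X, map_zero]
    by_cases hx : x 0 = 0
    · rw [hx, zero_mul]
    · have h3 : x = fun i => x 0 / s 0 *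
          (if i = 0 then s 0 else s i * (s 0 / x 0 * x i / s i) : ℂ) := by
        funext i
        have hs0 := hs 0
        have hsi := hs i
        split_ifs with hi
        · subst hi
          field_simp
        · field_simp
      have h4 : eval x P = 0 := by
        rw [h3, grid_scale hP (x 0 / s 0)
          (fun i => if i = 0 then s 0 else s i * (s 0 / x 0 * x i / s i)),
          ← grid_eval P s (fun i => s 0 / x 0 * x i / s i), hQ, map_zero, mul_zero]
      rw [h4, mul_zero]
  exact (mul_eq_zero.1 h2).resolve_left (X_ne_zero _)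

end Pool.Agent.Helper4.TA
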