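import Mathlib
import Pool.Agent.Helper49.TA.Df
import Pool.Agent.Helper53.TA.Fp
import Pool.Agent.Helper53.TA.Fl

/-!
PROJECT TA (MP_274814_nt), file Gz (offer TA-G-3).
-/

set_option autoImplicit false

namespace Pool.Agent.Helper4.TA

open Pool.Agent.Helper49.TA Pool.Agent.Helper53.TA

/-- the one variable function `ζ ↦ F (ζ • z)` is entire with all derivatives `0` at `0`
(`hasSum_taylorSeries_of_entire`) -/
theorem F_zero {F : (Fin 4 → ℂ) → ℂ} (hF : Differentiable ℂ F) (h : ∀ m z, dl m F z = 0)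
    (z : Fin 4 → ℂ) : F z = 0 := by
  have hd : Differentiable ℂ (fun ζ : ℂ => F (ζ • z)) :=
    hF.comp (differentiable_id.smul_const z)
  have h1 := Complex.taylorSeries_eq_of_entire' 0 1 hd
  have h2 : ∀ n : ℕ, iteratedDeriv n (fun ζ : ℂ => F (ζ • z)) 0 = 0 := fun n => h n z
  simp only [h2, mul_zero, zero_mul, tsum_zero, one_smul] at h1
  exact h1.symm

/-- derivatives of a sum: `iteratedDeriv_fun_sum`, `iteratedDeriv_const_mul`, `psi_diff` of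
`Helper53/TA/Fp`, `Lf_diff`, `Ls_diff`, `ta_im` of `Helper53/TA/Fl` -/
theorem dl_Ff (μ₁ μ₂ : ℂ) (L : ℕ) (p : (Fin 4 → Fin (L + 1)) → ℂ) (m : ℕ) (z : Fin 4 → ℂ) :
    dl m (Ff μ₁ μ₂ L p) z = ∑ k : Fin 4 → Fin (L + 1), p k *
      dl m (fun z => ∏ i, psi (ta i) (mf μ₁ μ₂ i) (k i) (Lf i z) (Ls i z)) z := by
  have hd : ∀ k : Fin 4 → Fin (L + 1), Differentiable ℂ (fun ζ : ℂ =>
      ∏ i, psi (ta i) (mf μ₁ μ₂ i) (k i) (Lf i (ζ • z)) (Ls i (ζ • z))) := by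
    intro k
    have h1 : Differentiable ℂ (fun w : Fin 4 → ℂ =>
        ∏ i, psi (ta i) (mf μ₁ μ₂ i) (k i) (Lf i w) (Ls i w)) := by
      have h2 : ∀ i : Fin 4, Differentiable ℂ (fun w : Fin 4 → ℂ =>
          psi (ta i) (mf μ₁ μ₂ i) (k i) (Lf i w) (Ls i w)) :=
        fun i => psi_diff (ta_im i) _ _ (Lf_diff i) (Ls_diff i)
      have e2 : (fun w : Fin 4 → ℂ =>
          ∏ i, psi (ta i) (mf μ₁ μ₂ i) (k i) (Lf i w) (Ls i w)) = fun w =>
          psi (ta 0) (mf μ₁ μ₂ 0) (k 0) (Lf 0 w) (Ls 0 w) *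
          psi (ta 1) (mf μ₁ μ₂ 1) (k 1) (Lf 1 w) (Ls 1 w) *
          psi (ta 2) (mf μ₁ μ₂ 2) (k 2) (Lf 2 w) (Ls 2 w) *
          psi (ta 3) (mf μ₁ μ₂ 3) (k 3) (Lf 3 w) (Ls 3 w) := by
        funext w
        exact Fin.prod_univ_four _
      rw [e2]
      exact (((h2 0).mul (h2 1)).mul (h2 2)).mul (h2 3)
    exact h1.comp (differentiable_id.smul_const z)
  unfold dl
  have e : (fun ζ : ℂ => Ff μ₁ μ₂ L p (ζ • z)) = fun ζ : ℂ =>
      ∑ k : Fin 4 → Fin (L + 1), p k *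
        ∏ i, psi (ta i) (mf μ₁ μ₂ i) (k i) (Lf i (ζ • z)) (Ls i (ζ • z)) := rfl
  rw [e, iteratedDeriv_fun_sum]
  · refine Finset.sum_congr rfl fun k _ => ?_
    exact iteratedDeriv_const_mul_field (p k) _
  · intro k _
    exact ((hd k).const_mul (p k)).contDiff.contDiffAt

end Pool.Agent.Helper4.TA
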