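import Pool.Agent.Helper4.TA.Ln

/-!
PROJECT TA (MP_274814_nt), block F5, file Pr (offer TA-F5-5): products.
-/

set_option autoImplicit false

namespace Pool.Agent.Helper4.TA

open Pool.Agent.Helper49.TA MvPolynomial Finset

/-- the Taylor coefficients of the functions `f k a` are values of integer polynomials -/
def Good (v : Fin 4 → ℂ) (f : (Fin 4 → ℕ) → (Fin 4 → ℕ) → ℂ → ℂ) : Prop :=
  ∃ C : ℝ, 1 ≤ C ∧ ∃ W : ℕ → (Fin 4 → ℕ) → (Fin 4 → ℕ) → MvPolynomial (Fin 4) ℤ,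
    ∀ (m : ℕ) (k a : Fin 4 → ℕ) (T : ℕ), 1 ≤ T → m ≤ T → (∀ i, k i ≤ T) → (∀ i, a i ≤ T) →
      ((W m k a).totalDegree : ℝ) ≤ C * T ∧
      ln (W m k a) ≤ Real.exp (C * T * Real.log (T + 1)) ∧
      iteratedDeriv m (f k a) 0 = aeval v (W m k a)

/-- `W m k a = ∑ i ∈ range (m+1), C (m.choose i) * W₁ i k a * W₂ (m - i) k a` by the Leibniz rule
`iteratedDeriv_fun_mul`; `∑ choose = 2^m ≤ 2^T ≤ exp (T log (T+1))`; constant `C₁ + C₂ + 1`. -/
theorem Good.mul {v : Fin 4 → ℂ} {f g : (Fin 4 → ℕ) → (Fin 4 → ℕ) → ℂ → ℂ} (hf : Good v f)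
    (hg : Good v g) (df : ∀ k a, Differentiable ℂ (f k a)) (dg : ∀ k a, Differentiable ℂ (g k a)) :
    Good v (fun k a ζ => f k a ζ * g k a ζ) := by
  obtain ⟨C₁, hC₁, W₁, h₁⟩ := hf
  obtain ⟨C₂, hC₂, W₂, h₂⟩ := hg
  refine ⟨C₁ + C₂ + 1, by linarith, fun m k a => ∑ i ∈ range (m + 1),
    C ((m.choose i : ℕ) : ℤ) * (W₁ i k a * W₂ (m - i) k a), ?_⟩
  intro m k a T hT hm hk ha
  have hT0 : (0 : ℝ) ≤ T := Nat.cast_nonneg T
  have hT1 : (1 : ℝ) ≤ T := by exact_mod_cast hT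
  have hlog : 0 ≤ Real.log ((T : ℝ) + 1) := Real.log_nonneg (by linarith)
  refine ⟨?_, ?_, ?_⟩
  · have key : (∑ i ∈ range (m + 1), C ((m.choose i : ℕ) : ℤ) *
        (W₁ i k a * W₂ (m - i) k a)).totalDegree ≤ ⌊(C₁ + C₂) * T⌋₊ := by
      refine totalDegree_finsetSum_le fun i hi => ?_
      have hi' := mem_range.1 hi
      obtain ⟨a1, -, -⟩ := h₁ i k a T hT (by omega) hk ha
      obtain ⟨a2, -, -⟩ := h₂ (m - i) k a T hT (by omega) hk ha
      apply Nat.le_floor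
      have e1 := totalDegree_mul (C ((m.choose i : ℕ) : ℤ)) (W₁ i k a * W₂ (m - i) k a)
      have e2 := totalDegree_mul (W₁ i k a) (W₂ (m - i) k a)
      rw [totalDegree_C, zero_add] at e1
      have e3 : ((C ((m.choose i : ℕ) : ℤ) * (W₁ i k a * W₂ (m - i) k a)).totalDegree : ℝ) ≤
          (W₁ i k a).totalDegree + (W₂ (m - i) k a).totalDegree := by
        exact_mod_cast e1.trans e2
      linarith
    have key2 := (Nat.cast_le (α := ℝ)).2 key
    have e4 : (0 : ℝ) ≤ (C₁ + C₂) * T := by positivity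
    have e5 := Nat.floor_le e4
    simp only at key2 ⊢
    linarith
  · have e : ln (∑ i ∈ range (m + 1), C ((m.choose i : ℕ) : ℤ) * (W₁ i k a * W₂ (m - i) k a)) ≤
        ∑ i ∈ range (m + 1), (m.choose i : ℝ) *
          (Real.exp (C₁ * T * Real.log (T + 1)) * Real.exp (C₂ * T * Real.log (T + 1))) := by
      refine (ln_sum _ _).trans (sum_le_sum fun i hi => ?_)
      have hi' := mem_range.1 hi
      obtain ⟨-, a1, -⟩ := h₁ i k a T hT (by omega) hk ha
      obtain ⟨-, a2, -⟩ := h₂ (m - i) k a T hT (by omega) hk ha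
      refine (ln_mul _ _).trans ?_
      have e1 : ln (C ((m.choose i : ℕ) : ℤ) : MvPolynomial (Fin 4) ℤ) = (m.choose i : ℝ) := by
        rw [ln_C]
        simp
      rw [e1]
      exact mul_le_mul_of_nonneg_left ((ln_mul _ _).trans
        (mul_le_mul a1 a2 (ln_nonneg _) (Real.exp_pos _).le)) (Nat.cast_nonneg _)
    refine e.trans ?_
    rw [← sum_mul]
    have e6 : (∑ i ∈ range (m + 1), (m.choose i : ℝ)) = 2 ^ m := by
      exact_mod_cast Nat.sum_range_choose m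
    have e7 : (2 : ℝ) ^ m ≤ Real.exp (T * Real.log (T + 1)) := by
      calc (2 : ℝ) ^ m ≤ (2 : ℝ) ^ T := pow_le_pow_right₀ (by norm_num) hm
        _ ≤ ((T : ℝ) + 1) ^ T := pow_le_pow_left₀ (by norm_num) (by linarith) T
        _ = Real.exp (T * Real.log (T + 1)) := by
          rw [mul_comm, Real.exp_mul, Real.exp_log (by linarith), Real.rpow_natCast]
    rw [e6]
    calc (2 : ℝ) ^ m * (Real.exp (C₁ * T * Real.log (T + 1)) *
          Real.exp (C₂ * T * Real.log (T + 1)))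
        ≤ Real.exp (T * Real.log (T + 1)) * (Real.exp (C₁ * T * Real.log (T + 1)) *
          Real.exp (C₂ * T * Real.log (T + 1))) :=
          mul_le_mul_of_nonneg_right e7 (by positivity)
      _ = Real.exp ((C₁ + C₂ + 1) * T * Real.log (T + 1)) := by
          rw [← Real.exp_add, ← Real.exp_add]
          congr 1
          ring
  · show iteratedDeriv m (fun ζ => f k a ζ * g k a ζ) 0 = _
    have c1 : ContDiffAt ℂ (m : ℕ) (f k a) 0 := (df k a).contDiff.contDiffAt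
    have c2 : ContDiffAt ℂ (m : ℕ) (g k a) 0 := (dg k a).contDiff.contDiffAt
    rw [iteratedDeriv_fun_mul c1 c2, map_sum]
    refine sum_congr rfl fun i hi => ?_
    have hi' := mem_range.1 hi
    obtain ⟨-, -, a1⟩ := h₁ i k a T hT (by omega) hk ha
    obtain ⟨-, -, a2⟩ := h₂ (m - i) k a T hT (by omega) hk ha
    rw [a1, a2, map_mul, map_mul, aeval_C]
    simp
    ring

end Pool.Agent.Helper4.TA
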