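import Pool.Agent.Helper4.TA.Ln

/-!
PROJECT TA (MP_274814_nt), block F5, file Sg (offer TA-F5-4): size of the polynomials of one factor.
-/

set_option autoImplicit false

namespace Pool.Agent.Helper4.TA

open Pool.Agent.Helper49.TA MvPolynomial Finset

noncomputable def PP (a : ℕ → ℤ) (k m : ℕ) (U V : MvPolynomial (Fin 4) ℤ) :
    MvPolynomial (Fin 4) ℤ :=
  ∑ j ∈ range (m + 1), C ((k.choose j : ℤ) * (m.descFactorial j : ℤ) * a (k + m - 2 * j)) *
    U ^ (m - j) * V ^ j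

theorem PP_spec (a : ℕ → ℤ) (k m : ℕ) (U V : MvPolynomial (Fin 4) ℤ) (x : Fin 4 → ℂ) :
    aeval x (PP a k m U V) = ∑ j ∈ range (m + 1), (k.choose j : ℂ) * (m.descFactorial j : ℂ) *
      (a (k + m - 2 * j) : ℂ) * (aeval x U) ^ (m - j) * (aeval x V) ^ j := by
  unfold PP
  rw [map_sum]
  refine Finset.sum_congr rfl fun j _ => ?_
  rw [map_mul, map_mul, map_pow, map_pow, aeval_C]
  simp only [algebraMap_int_eq, Int.coe_castRingHom, Int.cast_mul, Int.cast_natCast]

theorem PP_deg {a : ℕ → ℤ} {k m : ℕ} {U V : MvPolynomial (Fin 4) ℤ} (hU : U.totalDegree ≤ 3)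
    (hV : V.totalDegree ≤ 3) : (PP a k m U V).totalDegree ≤ 3 * m := by
  unfold PP
  refine totalDegree_finsetSum_le fun j hj => ?_
  have hj' : j ≤ m := Nat.lt_succ_iff.1 (Finset.mem_range.1 hj)
  refine (totalDegree_mul _ _).trans ?_
  have h1 : (C ((k.choose j : ℤ) * (m.descFactorial j : ℤ) * a (k + m - 2 * j)) *
      U ^ (m - j)).totalDegree ≤ 3 * (m - j) := by
    refine (totalDegree_mul _ _).trans ?_
    rw [totalDegree_C, zero_add]
    refine (totalDegree_pow _ _).trans ?_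
    rw [mul_comm 3]
    exact Nat.mul_le_mul_left _ hU
  have h2 : (V ^ j).totalDegree ≤ 3 * j := by
    refine (totalDegree_pow _ _).trans ?_
    rw [mul_comm 3]
    exact Nat.mul_le_mul_left _ hV
  omega

/-- Every term is at most `2^T · T^T · B^(2T+1) (2T)! · (100 T)^T`, and there are at most `T + 1`
terms; `(2T)! ≤ (2T)^(2T)`. -/
theorem PP_ln {a : ℕ → ℤ} {B : ℝ} (hB : 1 ≤ B)
    (ha : ∀ n, |(a n : ℝ)| ≤ B ^ (n + 1) * n.factorial) : ∃ C : ℝ, 1 ≤ C ∧
    ∀ (T k m : ℕ) (U V : MvPolynomial (Fin 4) ℤ), 1 ≤ T → k ≤ T → m ≤ T →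
      ln U ≤ 100 * T → ln V ≤ 100 * T →
      ln (PP a k m U V) ≤ Real.exp (C * T * Real.log (T + 1)) := by
  obtain ⟨b, hb⟩ := pow_unbounded_of_one_lt B one_lt_two
  refine ⟨15 + 3 * b, ?_, ?_⟩
  · have : (0 : ℝ) ≤ b := Nat.cast_nonneg b
    linarith
  intro T k m U V hT hk hm hU hV
  obtain ⟨y, hy⟩ : ∃ y : ℝ, y = (T : ℝ) + 1 := ⟨_, rfl⟩
  have hT1 : (1 : ℝ) ≤ T := by exact_mod_cast hT
  have hy2 : (2 : ℝ) ≤ y := by linarith
  have hy1 : (1 : ℝ) ≤ y := by linarith
  have hy0 : (0 : ℝ) ≤ y := by linarith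
  have hTy : (T : ℝ) ≤ y := by linarith
  have hterm : ∀ j ∈ range (m + 1),
      ln (MvPolynomial.C ((k.choose j : ℤ) * (m.descFactorial j : ℤ) * a (k + m - 2 * j)) *
        U ^ (m - j) * V ^ j) ≤ y ^ ((14 + 3 * b) * T) := by
    intro j hj
    have hj' : j ≤ m := Nat.lt_succ_iff.1 (Finset.mem_range.1 hj)
    have e1 : ((k.choose j : ℕ) : ℝ) ≤ y ^ T := by
      have h1 : k.choose j ≤ 2 ^ T :=
        (Nat.choose_le_two_pow k j).trans (Nat.pow_le_pow_right two_pos hk)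
      calc ((k.choose j : ℕ) : ℝ) ≤ ((2 ^ T : ℕ) : ℝ) := by exact_mod_cast h1
        _ = (2 : ℝ) ^ T := by push_cast; rfl
        _ ≤ y ^ T := pow_le_pow_left₀ (by norm_num) hy2 T
    have e2 : ((m.descFactorial j : ℕ) : ℝ) ≤ y ^ T := by
      have h1 : m.descFactorial j ≤ T ^ T :=
        (Nat.descFactorial_le_pow m j).trans
          ((Nat.pow_le_pow_left hm j).trans (Nat.pow_le_pow_right hT (hj'.trans hm)))
      calc ((m.descFactorial j : ℕ) : ℝ) ≤ ((T ^ T : ℕ) : ℝ) := by exact_mod_cast h1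
        _ = (T : ℝ) ^ T := by push_cast; rfl
        _ ≤ y ^ T := pow_le_pow_left₀ (by linarith) hTy T
    have e3 : |(a (k + m - 2 * j) : ℝ)| ≤ y ^ (b * (3 * T)) * y ^ (4 * T) := by
      refine (ha _).trans ?_
      have h1 : k + m - 2 * j + 1 ≤ 3 * T := by omega
      have h2 : k + m - 2 * j ≤ 2 * T := by omega
      have h3 : B ^ (k + m - 2 * j + 1) ≤ y ^ (b * (3 * T)) := by
        calc B ^ (k + m - 2 * j + 1) ≤ B ^ (3 * T) := pow_le_pow_right₀ hB h1
          _ ≤ ((2 : ℝ) ^ b) ^ (3 * T) := pow_le_pow_left₀ (by linarith) hb.le _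
          _ ≤ (y ^ b) ^ (3 * T) :=
            pow_le_pow_left₀ (by positivity) (pow_le_pow_left₀ (by norm_num) hy2 b) _
          _ = y ^ (b * (3 * T)) := by rw [← pow_mul]
      have h4 : (((k + m - 2 * j).factorial : ℕ) : ℝ) ≤ y ^ (4 * T) := by
        have h5 : (k + m - 2 * j).factorial ≤ (2 * T) ^ (2 * T) :=
          (Nat.factorial_le h2).trans (Nat.factorial_le_pow (2 * T))
        calc (((k + m - 2 * j).factorial : ℕ) : ℝ) ≤ (((2 * T) ^ (2 * T) : ℕ) : ℝ) := by
              exact_mod_cast h5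
          _ = (2 * (T : ℝ)) ^ (2 * T) := by push_cast; rfl
          _ ≤ (y * y) ^ (2 * T) :=
            pow_le_pow_left₀ (by linarith) (mul_le_mul hy2 hTy (by linarith) hy0) _
          _ = y ^ (4 * T) := by rw [← pow_two, ← pow_mul]; congr 1; ring
      exact mul_le_mul h3 h4 (Nat.cast_nonneg _) (by positivity)
    have e4 : ∀ W : MvPolynomial (Fin 4) ℤ, ln W ≤ 100 * T → ∀ i, ln (W ^ i) ≤ y ^ (8 * i) := by
      intro W hW i
      have h1 : ln W ≤ y ^ 8 := by
        refine hW.trans ?_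
        have h2 : (100 : ℝ) ≤ y ^ 7 :=
          le_trans (by norm_num) (pow_le_pow_left₀ (by norm_num) hy2 7)
        calc (100 : ℝ) * T ≤ y ^ 7 * y := mul_le_mul h2 hTy (by linarith) (by positivity)
          _ = y ^ 8 := by ring
      calc ln (W ^ i) ≤ ln W ^ i := ln_pow _ _
        _ ≤ (y ^ 8) ^ i := pow_le_pow_left₀ (ln_nonneg _) h1 _
        _ = y ^ (8 * i) := by rw [← pow_mul]
    have e5 : y ^ (8 * (m - j)) * y ^ (8 * j) ≤ y ^ (8 * T) := by
      rw [← pow_add]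
      exact pow_le_pow_right₀ hy1 (by omega)
    calc ln (MvPolynomial.C ((k.choose j : ℤ) * (m.descFactorial j : ℤ) * a (k + m - 2 * j)) *
          U ^ (m - j) * V ^ j)
        ≤ (ln (MvPolynomial.C ((k.choose j : ℤ) * (m.descFactorial j : ℤ) *
          a (k + m - 2 * j)) : MvPolynomial (Fin 4) ℤ) * ln (U ^ (m - j))) * ln (V ^ j) :=
          (ln_mul _ _).trans (mul_le_mul_of_nonneg_right (ln_mul _ _) (ln_nonneg _))
      _ = ((k.choose j : ℕ) : ℝ) * ((m.descFactorial j : ℕ) : ℝ) *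
          |(a (k + m - 2 * j) : ℝ)| * (ln (U ^ (m - j)) * ln (V ^ j)) := by
          rw [ln_C]
          push_cast
          rw [abs_mul, abs_mul, Nat.abs_cast, Nat.abs_cast]
          ring
      _ ≤ y ^ T * y ^ T * (y ^ (b * (3 * T)) * y ^ (4 * T)) * y ^ (8 * T) := by
          refine mul_le_mul (mul_le_mul (mul_le_mul e1 e2 (Nat.cast_nonneg _) (by positivity)) e3
            (abs_nonneg _) (by positivity)) ?_ (mul_nonneg (ln_nonneg _) (ln_nonneg _))
            (by positivity)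
          exact (mul_le_mul (e4 U hU _) (e4 V hV _) (ln_nonneg _) (by positivity)).trans e5
      _ = y ^ ((14 + 3 * b) * T) := by
          rw [← pow_add, ← pow_add, ← pow_add, ← pow_add]
          congr 1
          ring
  have h1 : ln (PP a k m U V) ≤ y ^ ((15 + 3 * b) * T) := by
    unfold PP
    refine (ln_sum _ _).trans ((Finset.sum_le_sum hterm).trans ?_)
    rw [Finset.sum_const, Finset.card_range, nsmul_eq_mul]
    have h2 : ((m + 1 : ℕ) : ℝ) ≤ y ^ T := by
      have h3 : ((m + 1 : ℕ) : ℝ) ≤ y := by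
        rw [hy]
        push_cast
        have : (m : ℝ) ≤ T := by exact_mod_cast hm
        linarith
      exact h3.trans (le_self_pow₀ hy1 (by omega))
    calc ((m + 1 : ℕ) : ℝ) * y ^ ((14 + 3 * b) * T) ≤ y ^ T * y ^ ((14 + 3 * b) * T) :=
          mul_le_mul_of_nonneg_right h2 (by positivity)
      _ = y ^ ((15 + 3 * b) * T) := by
          rw [← pow_add]
          congr 1
          ring
  refine h1.trans (le_of_eq ?_)
  have h2 : (15 + 3 * (b : ℝ)) * T * Real.log (T + 1) =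
      (((15 + 3 * b) * T : ℕ) : ℝ) * Real.log y := by
    rw [hy]
    push_cast
    ring
  rw [h2, Real.exp_nat_mul, Real.exp_log (by linarith)]

end Pool.Agent.Helper4.TA
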