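import Pool.Agent.Helper4.TA.Uv
import Pool.Agent.Helper4.TA.Dp
import Pool.Agent.Helper4.TA.Sg
import Pool.Agent.Helper4.TA.Pr
import Pool.Agent.Helper4.TA.Gr
import Pool.Agent.Helper4.TA.Gz
import Pool.Agent.Helper53.TA.Fq

/-!
PROJECT TA (MP_274814_nt), block F5 and grid lemma, file Fz: the targets.
-/

set_option autoImplicit false

namespace Pool.Agent.Helper4.TA

open Complex Pool.Agent.Helper49.TA Pool.Agent.Helper53.TA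

private theorem fz_factor {μ₁ μ₂ : ℂ} (h1 : μ₁ ≠ 0) (h2 : μ₂ ≠ 0) (i : Fin 4) {b : ℕ → ℤ}
    (hb : HasHurwitz (ta i) (mf μ₁ μ₂ i) b) :
    Good (vv μ₁ μ₂) (fun k a ζ => psi (ta i) (mf μ₁ μ₂ i) (k i)
      (Lf i (ζ • zd μ₁ μ₂ fun j => (a j : ℂ))) (Ls i (ζ • zd μ₁ μ₂ fun j => (a j : ℂ)))) := by
  obtain ⟨B, hB, hbB⟩ := hurwitz_bound (ta_im i) hb
  obtain ⟨C, hC, hPP⟩ := PP_ln hB hbB
  refine ⟨max C 3, le_max_of_le_left hC, fun m k a => PP b (k i) m (UU i a) (VV i a), ?_⟩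
  intro m k a T hT hm hk ha
  refine ⟨?_, ?_, ?_⟩
  · have e1 : (PP b (k i) m (UU i a) (VV i a)).totalDegree ≤ 3 * m :=
      PP_deg (UU_deg i a) (VV_deg i a)
    have e2 : ((PP b (k i) m (UU i a) (VV i a)).totalDegree : ℝ) ≤ 3 * m := by exact_mod_cast e1
    have e3 : (m : ℝ) ≤ T := by exact_mod_cast hm
    have e4 : (3 : ℝ) ≤ max C 3 := le_max_right _ _
    have e5 : (0 : ℝ) ≤ T := Nat.cast_nonneg T
    calc ((PP b (k i) m (UU i a) (VV i a)).totalDegree : ℝ) ≤ 3 * m := e2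
      _ ≤ 3 * T := by linarith
      _ ≤ max C 3 * T := mul_le_mul_of_nonneg_right e4 e5
  · refine (hPP T (k i) m _ _ hT (hk i) hm (UU_ln hT ha) (VV_ln hT ha)).trans ?_
    have e5 : (0 : ℝ) ≤ T := Nat.cast_nonneg T
    have e6 : (0 : ℝ) ≤ Real.log (T + 1) := Real.log_nonneg (by linarith)
    refine Real.exp_le_exp.2 (mul_le_mul_of_nonneg_right
      (mul_le_mul_of_nonneg_right (le_max_left _ _) e5) e6)
  · have e7 : (fun ζ : ℂ => psi (ta i) (mf μ₁ μ₂ i) (k i)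
        (Lf i (ζ • zd μ₁ μ₂ fun j => (a j : ℂ))) (Ls i (ζ • zd μ₁ μ₂ fun j => (a j : ℂ)))) =
        fun ζ : ℂ => psi (ta i) (mf μ₁ μ₂ i) (k i)
          (ζ * Lf i (zd μ₁ μ₂ fun j => (a j : ℂ))) (ζ * Ls i (zd μ₁ μ₂ fun j => (a j : ℂ))) := by
      funext ζ
      rw [Lf_smul, Ls_smul]
    show iteratedDeriv m (fun ζ : ℂ => psi (ta i) (mf μ₁ μ₂ i) (k i)
        (Lf i (ζ • zd μ₁ μ₂ fun j => (a j : ℂ))) (Ls i (ζ • zd μ₁ μ₂ fun j => (a j : ℂ)))) 0 = _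
    rw [e7, psi_line (ta_im i) hb, PP_spec, UU_spec h1 h2, VV_spec h1 h2]

private theorem fz_diff {μ₁ μ₂ : ℂ} (i : Fin 4) (k a : Fin 4 → ℕ) :
    Differentiable ℂ (fun ζ : ℂ => psi (ta i) (mf μ₁ μ₂ i) (k i)
      (Lf i (ζ • zd μ₁ μ₂ fun j => (a j : ℂ))) (Ls i (ζ • zd μ₁ μ₂ fun j => (a j : ℂ)))) := by
  have h : Differentiable ℂ (fun ζ : ℂ => ζ • zd μ₁ μ₂ fun j => (a j : ℂ)) :=
    differentiable_id.smul_const _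
  exact psi_diff (ta_im i) _ _ ((Lf_diff i).comp h) ((Ls_diff i).comp h)

theorem F_arith {μ₁ μ₂ : ℂ} {a₁ a₂ : ℕ → ℤ} (h₁ : HasHurwitz I μ₁ a₁)
    (h₂ : HasHurwitz rho μ₂ a₂) : ∃ C : ℝ, 1 ≤ C ∧
    ∃ W : ℕ → (Fin 4 → ℕ) → (Fin 4 → ℕ) → MvPolynomial (Fin 4) ℤ,
    ∀ (m : ℕ) (k a : Fin 4 → ℕ) (T : ℕ), 1 ≤ T → m ≤ T → (∀ i, k i ≤ T) → (∀ i, a i ≤ T) →
      ((W m k a).totalDegree : ℝ) ≤ C * T ∧
      ln (W m k a) ≤ Real.exp (C * T * Real.log (T + 1)) ∧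
      dl m (fun z => ∏ i, psi (ta i) (mf μ₁ μ₂ i) (k i) (Lf i z) (Ls i z))
        (zd μ₁ μ₂ fun i => (a i : ℂ)) = MvPolynomial.aeval (vv μ₁ μ₂) (W m k a) := by
  have g0 := fz_factor h₁.1 h₂.1 0 (b := a₁) h₁
  have g1 := fz_factor h₁.1 h₂.1 1 (b := a₁) h₁
  have g2 := fz_factor h₁.1 h₂.1 2 (b := a₂) h₂
  have g3 := fz_factor h₁.1 h₂.1 3 (b := a₂) h₂
  have d0 := fun k a => fz_diff (μ₁ := μ₁) (μ₂ := μ₂) 0 k a
  have d1 := fun k a => fz_diff (μ₁ := μ₁) (μ₂ := μ₂) 1 k a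
  have d2 := fun k a => fz_diff (μ₁ := μ₁) (μ₂ := μ₂) 2 k a
  have d3 := fun k a => fz_diff (μ₁ := μ₁) (μ₂ := μ₂) 3 k a
  have g01 := g0.mul g1 d0 d1
  have g012 := g01.mul g2 (fun k a => (d0 k a).mul (d1 k a)) d2
  have g := g012.mul g3 (fun k a => ((d0 k a).mul (d1 k a)).mul (d2 k a)) d3
  obtain ⟨C, hC, W, hW⟩ := g
  refine ⟨C, hC, W, fun m k a T hT hm hk ha => ?_⟩
  obtain ⟨w1, w2, w3⟩ := hW m k a T hT hm hk ha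
  refine ⟨w1, w2, ?_⟩
  rw [← w3]
  unfold dl
  congr 1
  funext ζ
  show ∏ i, psi (ta i) (mf μ₁ μ₂ i) (k i) (Lf i (ζ • zd μ₁ μ₂ fun i => (a i : ℂ)))
    (Ls i (ζ • zd μ₁ μ₂ fun i => (a i : ℂ))) = _
  rw [Fin.prod_univ_four]

/-- `z ↦ dl m F z` is a homogeneous polynomial of degree `m`; a grid decides whether it vanishes -/
theorem F_grid {μ₁ μ₂ : ℂ} (h1 : μ₁ ≠ 0) (h2 : μ₂ ≠ 0) (L : ℕ)
    (p : (Fin 4 → Fin (L + 1)) → ℂ) (m : ℕ)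
    (h : ∀ a : Fin 4 → ℕ, a 0 = 1 → (∀ i, i ≠ 0 → a i ≤ m) →
      dl m (Ff μ₁ μ₂ L p) (zd μ₁ μ₂ fun i => (a i : ℂ)) = 0) (z : Fin 4 → ℂ) :
    dl m (Ff μ₁ μ₂ L p) z = 0 := by
  obtain ⟨P, hP, hPz⟩ := dl_poly (F_diff μ₁ μ₂ L p) m
  have hpi : (Real.pi : ℂ) ≠ 0 := by exact_mod_cast Real.pi_ne_zero
  have e : P = 0 := by
    refine grid P hP ![18 / μ₂, 18 / μ₁, 18 * μ₁ / Real.pi, 18 / μ₂] (fun i => ?_)
      (fun a ha0 ha => ?_)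
    · fin_cases i <;> simp [h1, h2, hpi]
    · have h3 := h a ha0 ha
      rw [hPz] at h3
      have e4 : (fun i => ![18 / μ₂, 18 / μ₁, 18 * μ₁ / (Real.pi : ℂ), 18 / μ₂] i * (a i : ℂ)) =
          zd μ₁ μ₂ fun i => (a i : ℂ) := by
        funext i
        fin_cases i <;> simp [zd] <;> ring
      rw [e4]
      exact h3
  rw [hPz, e, map_zero]

end Pool.Agent.Helper4.TA
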