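import Mathlib
import Pool.Agent.Helper49.TA.Df

/-!
PROJECT TA (MP_274814_nt), block F5, file Ln (offer TA-F5-1): the length `ln` of integer polynomials.
-/

set_option autoImplicit false

namespace Pool.Agent.Helper4.TA

open Pool.Agent.Helper49.TA MvPolynomial

variable {n : ℕ}

theorem ln_nonneg (P : MvPolynomial (Fin n) ℤ) : 0 ≤ ln P := by
  unfold ln
  positivity

theorem ln_eq {P : MvPolynomial (Fin n) ℤ} {s : Finset (Fin n →₀ ℕ)} (hs : P.support ⊆ s) :
    ln P = ∑ m ∈ s, |((coeff m P : ℤ) : ℝ)| := by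
  unfold ln
  refine Finset.sum_subset hs fun m _ hm => ?_
  rw [notMem_support_iff.1 hm, Int.cast_zero, abs_zero]

theorem ln_zero : ln (0 : MvPolynomial (Fin n) ℤ) = 0 := by
  simp [ln]

theorem ln_add (P Q : MvPolynomial (Fin n) ℤ) : ln (P + Q) ≤ ln P + ln Q := by
  classical
  rw [ln_eq (support_add (p := P) (q := Q)), ln_eq (P := P) Finset.subset_union_left,
    ln_eq (P := Q) (s := P.support ∪ Q.support) Finset.subset_union_right,
    ← Finset.sum_add_distrib]
  refine Finset.sum_le_sum fun m _ => ?_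
  rw [coeff_add, Int.cast_add]
  exact abs_add_le _ _

theorem ln_sum {ι : Type*} (s : Finset ι) (f : ι → MvPolynomial (Fin n) ℤ) :
    ln (∑ i ∈ s, f i) ≤ ∑ i ∈ s, ln (f i) := by
  classical
  induction s using Finset.induction_on with
  | empty => rw [Finset.sum_empty, Finset.sum_empty, ln_zero]
  | insert a s ha ih =>
    rw [Finset.sum_insert ha, Finset.sum_insert ha]
    have := ln_add (f a) (∑ i ∈ s, f i)
    linarith

theorem ln_monomial (m : Fin n →₀ ℕ) (a : ℤ) : ln (monomial m a) = |(a : ℝ)| := by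
  classical
  rw [ln_eq (s := {m}) (by
    intro x hx
    rw [Finset.mem_singleton]
    by_contra h
    rw [mem_support_iff, coeff_monomial, if_neg (Ne.symm h)] at hx
    exact hx rfl)]
  rw [Finset.sum_singleton, coeff_monomial, if_pos rfl]

theorem ln_C (a : ℤ) : ln (C a : MvPolynomial (Fin n) ℤ) = |(a : ℝ)| := ln_monomial 0 a

theorem ln_X (i : Fin n) : ln (X i : MvPolynomial (Fin n) ℤ) = 1 := by
  rw [X, ln_monomial]
  simp

/-- write `P * Q = ∑ i ∈ P.support, ∑ j ∈ Q.support, monomial (i + j) (..)` -/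
theorem ln_mul (P Q : MvPolynomial (Fin n) ℤ) : ln (P * Q) ≤ ln P * ln Q := by
  classical
  have e : P * Q = ∑ i ∈ P.support, ∑ j ∈ Q.support, monomial (i + j) (coeff i P * coeff j Q) := by
    conv_lhs => rw [P.as_sum, Q.as_sum]
    rw [Finset.sum_mul_sum]
    simp only [monomial_mul]
  rw [e]
  refine (ln_sum _ _).trans ?_
  rw [ln, ln, Finset.sum_mul_sum]
  refine Finset.sum_le_sum fun i _ => (ln_sum _ _).trans (Finset.sum_le_sum fun j _ => ?_)
  rw [ln_monomial, Int.cast_mul, abs_mul]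

theorem ln_pow (P : MvPolynomial (Fin n) ℤ) (k : ℕ) : ln (P ^ k) ≤ ln P ^ k := by
  induction k with
  | zero =>
    have : (1 : MvPolynomial (Fin n) ℤ) = C 1 := rfl
    rw [pow_zero, pow_zero, this, ln_C]
    simp
  | succ k ih =>
    rw [pow_succ, pow_succ]
    exact (ln_mul _ _).trans (mul_le_mul_of_nonneg_right ih (ln_nonneg _))

end Pool.Agent.Helper4.TA
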