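import Pool.Agent.Helper4.TA.Ln
import Pool.Agent.Helper53.TA.Fl

/-!
PROJECT TA (MP_274814_nt), block F5, file Uv (offer TA-F5-2): the numbers `μ_i L_i(z)`,
`-h_i L*_i(z)/μ_i` for the scaled directions are values of integer polynomials.
`r₀ = X 0 = μ₁/μ₂`, `r₁ = X 1 = π/(μ₁μ₂)`, `X 2 = i`, `X 3 = ρ`.
-/

set_option autoImplicit false

namespace Pool.Agent.Helper4.TA

open Pool.Agent.Helper49.TA MvPolynomial Complex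

/-- the polynomials for `μ_i L_i(z)` -/
noncomputable def UU (i : Fin 4) (a : Fin 4 → ℕ) : MvPolynomial (Fin 4) ℤ :=
  ![-6 * (2 * X 3 + 1) * (C (a 1 : ℤ) * X 3 + C (a 0 : ℤ) * (1 + X 3) * X 0),
    -6 * (2 * X 3 + 1) * (C (a 0 : ℤ) * X 0 - C (a 1 : ℤ)),
    C (9 * (a 0 + a 3) : ℤ),
    C (-9 * (a 0 - a 3) : ℤ) * X 2] i

/-- the polynomials for `-h_i L*_i(z)/μ_i` -/
noncomputable def VV (i : Fin 4) (a : Fin 4 → ℕ) : MvPolynomial (Fin 4) ℤ :=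
  ![-6 * (2 * X 3 + 1) * (-(C (a 3 : ℤ) * (1 + X 3) * X 1) - C (a 2 : ℤ) * X 3),
    -6 * (2 * X 3 + 1) * (C (a 2 : ℤ) - C (a 3 : ℤ) * X 1),
    6 * X 2 * (2 * X 3 + 1) * (C (a 2 : ℤ) * X 0 + C (a 1 : ℤ) * X 1),
    6 * (2 * X 3 + 1) * (C (a 1 : ℤ) * X 1 - C (a 2 : ℤ) * X 0)] i

private theorem Uv_conj : (starRingEnd ℂ) rho = -1 - rho := by
  apply Complex.ext
  · simp only [rho, conj_re, add_re, sub_re, neg_re, one_re, mul_re, ofReal_re, ofReal_im, I_re,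
      I_im, div_ofNat_re]
    norm_num
  · simp only [rho, conj_im, add_im, sub_im, neg_im, one_im, mul_im, ofReal_re, ofReal_im, I_re,
      I_im, div_ofNat_im]
    norm_num

private theorem Uv_sqrt : ((Real.sqrt 3 : ℝ) : ℂ) = -I * (2 * rho + 1) := by
  have h : I * I = -1 := I_mul_I
  simp only [rho]
  push_cast
  linear_combination ((Real.sqrt 3 : ℝ) : ℂ) * h

private theorem Uv_sq : (2 * rho + 1) ^ 2 = -3 := by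
  linear_combination 4 * rho_sq

private theorem Uv_ne : 2 * rho + 1 ≠ 0 := by
  intro h
  have h1 := Uv_sq
  rw [h] at h1
  norm_num at h1

private theorem Uv_div (x : ℂ) : x / (2 * rho + 1) = -(2 * rho + 1) * x / 3 := by
  rw [div_eq_iff Uv_ne]
  linear_combination (x / 3) * Uv_sq

private theorem Uv_div' (x : ℂ) : x / (-1 - rho - rho) = (2 * rho + 1) * x / 3 := by
  have h : -1 - rho - rho = -(2 * rho + 1) := by ring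
  rw [h, div_neg, Uv_div]
  ring

private theorem Uv_hcI : ((hc I : ℝ) : ℂ) = Real.pi := by
  rw [hc, I_im, div_one]

private theorem Uv_hcr : ((hc rho : ℝ) : ℂ) = -2 * Real.pi * I * (2 * rho + 1) / 3 := by
  rw [hc, rho_im]
  have h3 : ((Real.sqrt 3 : ℝ) : ℂ) ≠ 0 := by
    rw [ofReal_ne_zero]; positivity
  push_cast
  rw [div_div_eq_mul_div, div_eq_iff h3, Uv_sqrt]
  linear_combination (2 * (Real.pi : ℂ) / 3) * Uv_sq + (-2 * (Real.pi : ℂ) / 3 * (2 * rho + 1) ^ 2) * I_mul_I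

/-- `fin_cases i`, `simp`, then `field_simp` and `linear_combination` with `rho ^ 2 = -1 - rho`
(`rho_sq` of `Ea`), `conj rho = -1 - rho`. -/
theorem UU_spec {μ₁ μ₂ : ℂ} (h1 : μ₁ ≠ 0) (h2 : μ₂ ≠ 0) (i : Fin 4) (a : Fin 4 → ℕ) :
    aeval (vv μ₁ μ₂) (UU i a) = mf μ₁ μ₂ i * Lf i (zd μ₁ μ₂ fun j => (a j : ℂ)) := by
  have hd : rho - (-1 - rho) = 2 * rho + 1 := by ring
  fin_cases i
  · simp [UU, vv, mf, Lf, zd, Uv_conj, hd, Uv_div]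
    field_simp
    ring
  · simp [UU, vv, mf, Lf, zd, Uv_conj, hd, Uv_div]
    field_simp
    ring
  · simp [UU, vv, mf, Lf, zd, Uv_conj, hd, Uv_div]
    field_simp
    ring
  · simp [UU, vv, mf, Lf, zd, Uv_conj, hd, Uv_div]
    field_simp
    linear_combination (18 * ((a 3 : ℂ) - (a 0 : ℂ))) * I_sq

/-- `hc I = π`, `hc ρ = 2π/√3`, `√3 = -i (2ρ+1)`. -/
theorem VV_spec {μ₁ μ₂ : ℂ} (h1 : μ₁ ≠ 0) (h2 : μ₂ ≠ 0) (i : Fin 4) (a : Fin 4 → ℕ) :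
    aeval (vv μ₁ μ₂) (VV i a) =
      -(hc (ta i)) * Ls i (zd μ₁ μ₂ fun j => (a j : ℂ)) / mf μ₁ μ₂ i := by
  have hpi : (Real.pi : ℂ) ≠ 0 := by rw [ofReal_ne_zero]; exact Real.pi_ne_zero
  fin_cases i
  · simp [VV, vv, mf, Ls, zd, ta, Uv_conj, Uv_div', Uv_hcI]
    field_simp
    ring
  · simp [VV, vv, mf, Ls, zd, ta, Uv_conj, Uv_div', Uv_hcI]
    field_simp
    ring
  · simp [VV, vv, mf, Ls, zd, ta, Uv_conj, Uv_hcr]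
    field_simp
    ring
  · simp [VV, vv, mf, Ls, zd, ta, Uv_conj, Uv_hcr]
    field_simp
    ring

private theorem Uv_dmul {P Q : MvPolynomial (Fin 4) ℤ} {m n : ℕ} (hP : P.totalDegree ≤ m)
    (hQ : Q.totalDegree ≤ n) : (P * Q).totalDegree ≤ m + n :=
  (totalDegree_mul P Q).trans (add_le_add hP hQ)

private theorem Uv_dadd {P Q : MvPolynomial (Fin 4) ℤ} {m : ℕ} (hP : P.totalDegree ≤ m)
    (hQ : Q.totalDegree ≤ m) : (P + Q).totalDegree ≤ m :=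
  (totalDegree_add P Q).trans (max_le hP hQ)

private theorem Uv_dneg {P : MvPolynomial (Fin 4) ℤ} {m : ℕ} (hP : P.totalDegree ≤ m) :
    (-P).totalDegree ≤ m := by
  rwa [totalDegree_neg]

private theorem Uv_dsub {P Q : MvPolynomial (Fin 4) ℤ} {m : ℕ} (hP : P.totalDegree ≤ m)
    (hQ : Q.totalDegree ≤ m) : (P - Q).totalDegree ≤ m := by
  rw [sub_eq_add_neg]
  exact Uv_dadd hP (Uv_dneg hQ)

private theorem Uv_dC (a : ℤ) {m : ℕ} : (C a : MvPolynomial (Fin 4) ℤ).totalDegree ≤ m := by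
  rw [totalDegree_C]
  exact Nat.zero_le m

private theorem Uv_dX (i : Fin 4) {m : ℕ} : (X i : MvPolynomial (Fin 4) ℤ).totalDegree ≤ m + 1 := by
  rw [totalDegree_X]
  omega

private theorem Uv_d6 : (-6 * (2 * X 3 + 1) : MvPolynomial (Fin 4) ℤ).totalDegree ≤ 1 :=
  Uv_dmul (m := 0) (n := 1) (Uv_dneg (Uv_dC 6)) (Uv_dadd (Uv_dmul (m := 0) (n := 1) (Uv_dC 2) (Uv_dX 3))
    (Uv_dC 1))

private theorem Uv_d6' : (6 * (2 * X 3 + 1) : MvPolynomial (Fin 4) ℤ).totalDegree ≤ 1 :=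
  Uv_dmul (m := 0) (n := 1) (Uv_dC 6) (Uv_dadd (Uv_dmul (m := 0) (n := 1) (Uv_dC 2) (Uv_dX 3))
    (Uv_dC 1))

theorem UU_deg (i : Fin 4) (a : Fin 4 → ℕ) : (UU i a).totalDegree ≤ 3 := by
  fin_cases i
  · exact Uv_dmul (m := 1) (n := 2) Uv_d6 (Uv_dadd (Uv_dmul (m := 0) (n := 2) (Uv_dC _) (Uv_dX 3))
      (Uv_dmul (m := 1) (n := 1) (Uv_dmul (m := 0) (n := 1) (Uv_dC _) (Uv_dadd (Uv_dC 1) (Uv_dX 3)))
        (Uv_dX 0)))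
  · exact Uv_dmul (m := 1) (n := 2) Uv_d6 (Uv_dsub (Uv_dmul (m := 0) (n := 2) (Uv_dC _) (Uv_dX 0))
      (Uv_dC _))
  · exact Uv_dC _
  · exact Uv_dmul (m := 0) (n := 3) (Uv_dC _) (Uv_dX 2)

theorem VV_deg (i : Fin 4) (a : Fin 4 → ℕ) : (VV i a).totalDegree ≤ 3 := by
  fin_cases i
  · exact Uv_dmul (m := 1) (n := 2) Uv_d6 (Uv_dsub (Uv_dneg (Uv_dmul (m := 1) (n := 1)
      (Uv_dmul (m := 0) (n := 1) (Uv_dC _) (Uv_dadd (Uv_dC 1) (Uv_dX 3))) (Uv_dX 1)))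
      (Uv_dmul (m := 0) (n := 2) (Uv_dC _) (Uv_dX 3)))
  · exact Uv_dmul (m := 1) (n := 2) Uv_d6 (Uv_dsub (Uv_dC _)
      (Uv_dmul (m := 0) (n := 2) (Uv_dC _) (Uv_dX 1)))
  · exact Uv_dmul (m := 2) (n := 1) (Uv_dmul (m := 1) (n := 1)
      (Uv_dmul (m := 0) (n := 1) (Uv_dC 6) (Uv_dX 2))
      (Uv_dadd (Uv_dmul (m := 0) (n := 1) (Uv_dC 2) (Uv_dX 3)) (Uv_dC 1)))
      (Uv_dadd (Uv_dmul (m := 0) (n := 1) (Uv_dC _) (Uv_dX 0))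
        (Uv_dmul (m := 0) (n := 1) (Uv_dC _) (Uv_dX 1)))
  · exact Uv_dmul (m := 1) (n := 2) Uv_d6' (Uv_dsub (Uv_dmul (m := 0) (n := 2) (Uv_dC _) (Uv_dX 1))
        (Uv_dmul (m := 0) (n := 2) (Uv_dC _) (Uv_dX 0)))

private theorem Uv_lmul {P Q : MvPolynomial (Fin 4) ℤ} {x y : ℝ} (hP : ln P ≤ x)
    (hQ : ln Q ≤ y) : ln (P * Q) ≤ x * y :=
  (ln_mul P Q).trans (mul_le_mul hP hQ (ln_nonneg Q) ((ln_nonneg P).trans hP))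

private theorem Uv_ladd {P Q : MvPolynomial (Fin 4) ℤ} {x y : ℝ} (hP : ln P ≤ x)
    (hQ : ln Q ≤ y) : ln (P + Q) ≤ x + y :=
  (ln_add P Q).trans (add_le_add hP hQ)

private theorem Uv_lC (a : ℤ) {x : ℝ} (h : |(a : ℝ)| ≤ x) :
    ln (C a : MvPolynomial (Fin 4) ℤ) ≤ x := by
  rwa [ln_C]

private theorem Uv_lN (a : ℕ) {T : ℕ} (h : a ≤ T) :
    ln (C (a : ℤ) : MvPolynomial (Fin 4) ℤ) ≤ T := by
  rw [ln_C, Int.cast_natCast, Nat.abs_cast]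
  exact_mod_cast h

private theorem Uv_lX (i : Fin 4) : ln (X i : MvPolynomial (Fin 4) ℤ) ≤ 1 := (ln_X i).le

private theorem Uv_lneg {P : MvPolynomial (Fin 4) ℤ} {x : ℝ} (hP : ln P ≤ x) : ln (-P) ≤ x := by
  have h : -P = C (-1) * P := by
    rw [C_neg, C_1, neg_one_mul]
  rw [h]
  have h1 := Uv_lmul (Uv_lC (-1) (x := 1) (by norm_num)) hP
  rwa [one_mul] at h1

private theorem Uv_lsub {P Q : MvPolynomial (Fin 4) ℤ} {x y : ℝ} (hP : ln P ≤ x)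
    (hQ : ln Q ≤ y) : ln (P - Q) ≤ x + y := by
  rw [sub_eq_add_neg]
  exact Uv_ladd hP (Uv_lneg hQ)

private theorem Uv_l1 : ln (2 * X 3 + 1 : MvPolynomial (Fin 4) ℤ) ≤ 2 * 1 + 1 :=
  Uv_ladd (Uv_lmul (Uv_lC 2 (by norm_num)) (Uv_lX 3)) (Uv_lC 1 (by norm_num))

private theorem Uv_l6 : ln (-6 * (2 * X 3 + 1) : MvPolynomial (Fin 4) ℤ) ≤ 6 * (2 * 1 + 1) :=
  Uv_lmul (Uv_lneg (Uv_lC 6 (by norm_num))) Uv_l1

private theorem Uv_l6' : ln (6 * (2 * X 3 + 1) : MvPolynomial (Fin 4) ℤ) ≤ 6 * (2 * 1 + 1) :=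
  Uv_lmul (Uv_lC 6 (by norm_num)) Uv_l1

/-- `ln_mul`, `ln_add`, `ln_X`, `ln_C` of `Ln.lean` -/
theorem UU_ln {i : Fin 4} {a : Fin 4 → ℕ} {T : ℕ} (hT : 1 ≤ T) (ha : ∀ j, a j ≤ T) :
    ln (UU i a) ≤ 100 * T := by
  have hT' : (1 : ℝ) ≤ T := by exact_mod_cast hT
  have h0 : ((a 0 : ℕ) : ℝ) ≤ T := by exact_mod_cast ha 0
  have h3 : ((a 3 : ℕ) : ℝ) ≤ T := by exact_mod_cast ha 3
  have h0' : (0 : ℝ) ≤ ((a 0 : ℕ) : ℝ) := Nat.cast_nonneg _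
  have h3' : (0 : ℝ) ≤ ((a 3 : ℕ) : ℝ) := Nat.cast_nonneg _
  fin_cases i
  · refine (Uv_lmul Uv_l6 (Uv_ladd (Uv_lmul (Uv_lN _ (ha 1)) (Uv_lX 3))
      (Uv_lmul (Uv_lmul (Uv_lN _ (ha 0)) (Uv_ladd (Uv_lC 1 (x := 1) (by norm_num)) (Uv_lX 3)))
        (Uv_lX 0)))).trans ?_
    linarith
  · refine (Uv_lmul Uv_l6 (Uv_lsub (Uv_lmul (Uv_lN _ (ha 0)) (Uv_lX 0)) (Uv_lN _ (ha 1)))).trans ?_
    linarith
  · refine Uv_lC _ ?_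
    push_cast
    rw [abs_le]
    constructor <;> linarith
  · refine (Uv_lmul (Uv_lC _ (x := 18 * (T : ℝ)) ?_) (Uv_lX 2)).trans ?_
    · push_cast
      rw [abs_le]
      constructor <;> linarith
    · linarith

theorem VV_ln {i : Fin 4} {a : Fin 4 → ℕ} {T : ℕ} (hT : 1 ≤ T) (ha : ∀ j, a j ≤ T) :
    ln (VV i a) ≤ 100 * T := by
  have hT' : (1 : ℝ) ≤ T := by exact_mod_cast hT
  fin_cases i
  · refine (Uv_lmul Uv_l6 (Uv_lsub (Uv_lneg (Uv_lmul (Uv_lmul (Uv_lN _ (ha 3))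
      (Uv_ladd (Uv_lC 1 (x := 1) (by norm_num)) (Uv_lX 3))) (Uv_lX 1)))
      (Uv_lmul (Uv_lN _ (ha 2)) (Uv_lX 3)))).trans ?_
    linarith
  · refine (Uv_lmul Uv_l6 (Uv_lsub (Uv_lN _ (ha 2)) (Uv_lmul (Uv_lN _ (ha 3)) (Uv_lX 1)))).trans ?_
    linarith
  · refine (Uv_lmul (Uv_lmul (Uv_lmul (Uv_lC 6 (x := 6) (by norm_num)) (Uv_lX 2)) Uv_l1)
      (Uv_ladd (Uv_lmul (Uv_lN _ (ha 2)) (Uv_lX 0)) (Uv_lmul (Uv_lN _ (ha 1)) (Uv_lX 1)))).trans ?_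
    linarith
  · refine (Uv_lmul Uv_l6' (Uv_lsub (Uv_lmul (Uv_lN _ (ha 1)) (Uv_lX 1))
      (Uv_lmul (Uv_lN _ (ha 2)) (Uv_lX 0)))).trans ?_
    linarith

end Pool.Agent.Helper4.TA
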